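import Pool.Agent.H166Z.SV.Final

set_option autoImplicit false

namespace Pool.Agent.Results.MP_a05d5a_an.AFiniteOrder

open H166Z.SV

/-- The Saff-Varga width conjecture for entire functions of positive finite order is false. -/
theorem result : ¬ ∀ (τ K x₀ : ℝ), 0 < τ → 0 < K → 0 < x₀ →
    ∀ (f : ℂ → ℂ) (a : ℕ → ℂ), (∀ z, HasSum (fun k => a k * z ^ k) (f z)) →
    ∀ lam : ℝ, order f = (lam : EReal) → 0 < lam → τ < lam →
    ∃ M : Set ℕ, M.Infinite ∧ (∀ m ∈ M, 0 < m) ∧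
      ∀ θ : ℝ, ∃ m ∈ M, ∃ z ∈ region τ K x₀ θ, partialSum a m z = 0 :=
  not_width

end Pool.Agent.Results.MP_a05d5a_an.AFiniteOrder
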